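import Pool.Agent.Helper59.LUC.Goals2

set_option autoImplicit false

open Polynomial

namespace Pool.Agent.Helper59.LUC
namespace PkOR2

lemma transfer {r : ℕ} (hr : 0 < r) {z z' : ℂ}
    (hz : IsPrimitiveRoot z r) (hz' : IsPrimitiveRoot z' r) (g : ℚ[X]) (h : aeval z g = 0) :
    aeval z' g = 0 := by
  have h1 : minpoly ℚ z ∣ g := minpoly.dvd ℚ z h
  rw [← cyclotomic_eq_minpoly_rat hz hr, cyclotomic_eq_minpoly_rat hz' hr] at h1
  exact aeval_eq_zero_of_dvd_aeval_eq_zero h1 (minpoly.aeval _ _)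

/-- the order of one of the two square roots -/
def nn (r : ℕ) : ℕ := if r % 2 = 0 then 2 * r else r

lemma nn_pos {r : ℕ} (hr : 3 ≤ r) : 0 < nn r := by
  unfold nn
  split_ifs <;> omega

lemma neg_pow_odd {a : ℕ} (ha : Odd a) (w : ℂ) : (-w) ^ a = -(w ^ a) := ha.neg_pow w

/-- one of `w`, `-w` has order `nn r` -/
lemma prim_or {r : ℕ} (hr : 3 ≤ r) {w : ℂ} (hw : IsPrimitiveRoot (w ^ 2) r) :
    IsPrimitiveRoot w (nn r) ∨ IsPrimitiveRoot (-w) (nn r) := by
  have h1 : (w ^ r) ^ 2 = 1 := by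
    rw [← pow_mul, mul_comm r 2, pow_mul]
    exact hw.pow_eq_one
  have h2 : w ^ r = 1 ∨ w ^ r = -1 := by
    rcases mul_eq_zero.1 (show (w ^ r - 1) * (w ^ r + 1) = 0 by linear_combination h1) with h | h
    · left; linear_combination h
    · right; linear_combination h
  unfold nn
  by_cases he : r % 2 = 0
  · left
    rw [if_pos he]
    obtain ⟨e, he2⟩ : ∃ e, r = 2 * e := ⟨r / 2, by omega⟩
    have h3 : w ^ r ≠ 1 := by
      intro h
      have h4 : (w ^ 2) ^ e = 1 := by rw [← pow_mul, ← he2]; exact h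
      have h5 : r ∣ e := (hw.pow_eq_one_iff_dvd e).1 h4
      have h6 := Nat.le_of_dvd (by omega) h5
      omega
    have h4 : w ^ r = -1 := h2.resolve_left h3
    refine IsPrimitiveRoot.iff_def w (2 * r) |>.2 ⟨?_, ?_⟩
    · rw [pow_mul]; exact hw.pow_eq_one
    · intro l hl
      have h5 : (w ^ 2) ^ l = 1 := by
        rw [← pow_mul, mul_comm 2 l, pow_mul, hl, one_pow]
      obtain ⟨k, hk⟩ := (hw.pow_eq_one_iff_dvd l).1 h5
      rw [hk, pow_mul, h4] at hl
      have h6 : Even k := by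
        by_contra hodd
        rw [Nat.not_even_iff_odd] at hodd
        rw [hodd.neg_one_pow] at hl
        norm_num at hl
      obtain ⟨j, hj⟩ := h6
      exact ⟨j, by rw [hk, hj]; ring⟩
  · rw [if_neg he]
    have key : ∀ z : ℂ, z ^ 2 = w ^ 2 → z ^ r = 1 → IsPrimitiveRoot z r := by
      intro z hz hz1
      refine IsPrimitiveRoot.iff_def z r |>.2 ⟨hz1, ?_⟩
      intro l hl
      have h5 : (w ^ 2) ^ l = 1 := by
        rw [← hz, ← pow_mul, mul_comm 2 l, pow_mul, hl, one_pow]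
      exact (hw.pow_eq_one_iff_dvd l).1 h5
    rcases h2 with h2 | h2
    · exact Or.inl (key w rfl h2)
    · right
      refine key (-w) (by ring) ?_
      rw [neg_pow_odd (Nat.odd_iff.2 (by omega)) w, h2, neg_neg]

/-- the base point -/
lemma exists_base {r : ℕ} (hr : 3 ≤ r) : ∃ ζ : ℂ, IsPrimitiveRoot ζ (nn r) ∧ IsPrimitiveRoot (ζ ^ 2) r := by
  refine ⟨Complex.exp (2 * Real.pi * Complex.I / (nn r)), Complex.isPrimitiveRoot_exp _ (nn_pos hr).ne', ?_⟩
  have h1 := Complex.isPrimitiveRoot_exp (nn r) (nn_pos hr).ne'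
  by_cases he : r % 2 = 0
  · exact h1.pow (nn_pos hr) (by unfold nn; rw [if_pos he])
  · have h2 : nn r = r := by unfold nn; rw [if_neg he]
    have h3 := h1.pow_of_coprime 2 (by
      rw [h2]
      exact (Nat.coprime_two_left.2 (Nat.odd_iff.2 (by omega))))
    rw [h2] at h3 ⊢
    exact h3

lemma pow_mem {r a : ℕ} (ha : a.Coprime (2 * r)) {w : ℂ} (hw : IsPrimitiveRoot (w ^ 2) r) :
    IsPrimitiveRoot ((w ^ a) ^ 2) r := by
  have h1 : (w ^ a) ^ 2 = (w ^ 2) ^ a := by rw [← pow_mul, ← pow_mul, mul_comm]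
  rw [h1]
  exact hw.pow_of_coprime a (Nat.Coprime.coprime_mul_left_right ha)

lemma odd_of_coprime {r a : ℕ} (ha : a.Coprime (2 * r)) : Odd a :=
  Nat.coprime_two_right.1 (Nat.Coprime.coprime_mul_right_right ha)

/-- if the relation holds at the base point it holds at all square roots -/
lemma spread {F : ℤ} {r a : ℕ} {h : ℚ[X]} (hr : 3 ≤ r) (hh : OddRoot F r h) (ha : a.Coprime (2 * r)) (e : ℚ)
    {ζ : ℂ} (hζ : IsPrimitiveRoot ζ (nn r)) (h0 : aeval (ζ ^ a) h = (e : ℂ) * aeval ζ h)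
    {w : ℂ} (hw : IsPrimitiveRoot (w ^ 2) r) : aeval (w ^ a) h = (e : ℂ) * aeval w h := by
  have h1 : aeval ζ (h.comp (X ^ a) - C e * h) = 0 := by
    simp [aeval_comp, h0]
  have key : ∀ z : ℂ, IsPrimitiveRoot z (nn r) → aeval (z ^ a) h = (e : ℂ) * aeval z h := by
    intro z hz
    have h2 := transfer (nn_pos hr) hζ hz _ h1
    simp [aeval_comp] at h2
    linear_combination h2
  rcases prim_or hr hw with h3 | h3
  · exact key w h3
  · have h4 := key (-w) h3
    rw [neg_pow_odd (odd_of_coprime ha), (hh (w ^ a) (pow_mem ha hw)).2, (hh w hw).2] at h4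
    linear_combination -h4

theorem thm : G_OR2 := by
  classical
  intro F r h hF hr hh s hs
  have hs0 : s ≠ 0 := by
    rintro rfl
    apply hF
    have h1 : (F : ℂ) = 0 := by rw [← hs]; ring
    exact_mod_cast h1
  have hns : -s ≠ s := by
    intro h1
    apply hs0
    have h2 : (2 : ℂ) * s = 0 := by linear_combination -h1
    simpa using h2
  have hpm : ∀ w : ℂ, IsPrimitiveRoot (w ^ 2) r → aeval w h = s ∨ aeval w h = -s := by
    intro w hw
    have h1 := (hh w hw).1
    rw [← hs] at h1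
    exact sq_eq_sq_iff_eq_or_eq_neg.mp h1
  let O : Finset ℂ := (nthRootsFinset (2 * r) (1 : ℂ)).filter (fun w => IsPrimitiveRoot (w ^ 2) r ∧ aeval w h = s)
  have hO : ∀ w : ℂ, w ∈ O ↔ (IsPrimitiveRoot (w ^ 2) r ∧ aeval w h = s) := by
    intro w
    simp only [O, Finset.mem_filter]
    constructor
    · exact fun h1 => h1.2
    · intro h1
      refine ⟨?_, h1⟩
      rw [mem_nthRootsFinset (by omega)]
      rw [pow_mul]
      exact h1.1.pow_eq_one
  have hneg : ∀ w : ℂ, IsPrimitiveRoot (w ^ 2) r → IsPrimitiveRoot ((-w) ^ 2) r := by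
    intro w hw
    have h1 : (-w) ^ 2 = w ^ 2 := by ring
    rw [h1]; exact hw
  refine ⟨O, ⟨fun w hw => ((hO w).1 hw).1, ?_, ?_⟩, hO⟩
  · intro w hw
    rw [hO, hO]
    have h1 := (hh w hw).2
    constructor
    · rintro ⟨_, h2⟩ ⟨_, h3⟩
      rw [h1, h2] at h3
      exact hns h3
    · intro h2
      refine ⟨hw, ?_⟩
      rcases hpm w hw with h3 | h3
      · exact h3
      · exfalso
        apply h2
        refine ⟨hneg w hw, ?_⟩
        rw [h1, h3, neg_neg]
  · intro a ha
    obtain ⟨ζ, hζ, hζ2⟩ := exists_base hr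
    have h1 : aeval (ζ ^ a) h = aeval ζ h ∨ aeval (ζ ^ a) h = -aeval ζ h := by
      have h2 := (hh ζ hζ2).1
      have h3 := (hh (ζ ^ a) (pow_mem ha hζ2)).1
      rw [← h2] at h3
      exact sq_eq_sq_iff_eq_or_eq_neg.mp h3
    rcases h1 with h1 | h1
    · left
      intro w hw
      rw [hO] at hw ⊢
      refine ⟨pow_mem ha hw.1, ?_⟩
      have h2 := spread (e := 1) hr hh ha hζ (by rw [h1]; push_cast; ring) hw.1
      rw [h2, hw.2]
      push_cast
      ring
    · right
      intro w hw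
      rw [hO] at hw ⊢
      have h3 := pow_mem ha hw.1
      refine ⟨hneg _ h3, ?_⟩
      have h2 := spread (e := -1) hr hh ha hζ (by rw [h1]; push_cast; ring) hw.1
      rw [(hh _ h3).2, h2, hw.2]
      push_cast
      ring

end PkOR2
end Pool.Agent.Helper59.LUC
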